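import Pool.Agent.Helper94.OT.Par

/-! # Project OT (MP_2b6189_al): the case `a = 1`, `p` a Fermat prime -/

set_option autoImplicit false

namespace Pool.Agent.Helper94.OT

open Pool.Agent.Helper89.OS Pool.Agent.Helper60.OS Pool.Agent.Helper94.YF

open Classical in
theorem cdx3 (hPAR : ∀ (I : Type) [Fintype I] [DecidableEq I] (p a : ℕ) (X : PD I p a) (j : I),
      X.pi (-1) j = j → Odd (X.z j))
    (hMZZ : StMZZ) (hDRE : StDRE) (hTSU : StTSU) (hMUK : StMUK) (hSTL : StSTL)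
    (hHEC : StHEC) (hAMG : StAMG) (hRAT : StRAT) (I : Type) [Fintype I] [DecidableEq I] (p : ℕ)
    (X : PD I p 1) (Q : ℂ → Prop) (hB : Blk X Q) :
    ∃ C : CD3 I p, C.d = X.d ∧
      (C.K = Finset.univ.filter fun k => X.y k ≠ 0 ∧ X.t k = 1 ∧ k ≠ X.o) ∧
      C.g = (p : ℤ) - X.y X.o := by
  obtain ⟨C, hd, hK, hy, hO, hg, hz⟩ := cdx2 hMZZ hDRE hTSU hMUK hSTL hHEC hAMG hRAT I p X Q hB
  have hKm : ∀ k, k ∈ C.K ↔ X.y k ≠ 0 ∧ X.t k = 1 ∧ k ≠ X.o := by
    intro k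
    simp [hK]
  refine ⟨{ C with pos := ?_, par := ?_ }, hd, hK, hg⟩
  · by_contra hno
    push Not at hno
    rw [hy] at hno
    have hkap := X.kap_y
    have hg2 := C.g_ge
    rw [hg] at hg2
    have h1 : ∑ i ∈ Finset.univ.erase X.o, X.y i * (X.kap i : ℤ) ≤ 0 := by
      apply Finset.sum_nonpos
      intro i hi
      have hio : i ≠ X.o := (Finset.mem_erase.1 hi).1
      by_cases h0 : X.kap i = 0
      · rw [h0]; simp
      by_cases hyi : X.y i = 0
      · rw [hyi]; simp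
      have h2 := hno i ((hKm i).2 ⟨hyi, X.kap_t i h0, hio⟩)
      exact mul_nonpos_of_nonpos_of_nonneg h2 (by positivity)
    rw [← Finset.add_sum_erase _ _ (Finset.mem_univ X.o), X.kap_o] at hkap
    push_cast at hkap
    linarith
  · intro k hk hs
    rw [hO]
    apply par2 X k
    intro h
    have h1 := hPAR I p 1 X k h
    rw [hz k hk hs] at h1
    exact absurd h1 (by decide)

/-- the case `a = 1`, `p` a Fermat prime -/
theorem hFER (hPAR : ∀ (I : Type) [Fintype I] [DecidableEq I] (p a : ℕ) (X : PD I p a) (j : I),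
      X.pi (-1) j = j → Odd (X.z j))
    (hMZZ : StMZZ) (hDRE : StDRE) (hTSU : StTSU) (hMUK : StMUK) (hSTL : StSTL)
    (hHEC : StHEC) (hAMG : StAMG) (hRAT : StRAT) (I : Type) [Fintype I] [DecidableEq I] (p : ℕ)
    (X : PD I p 1) (Q : ℂ → Prop) (hB : Blk X Q) (hf : ∃ e : ℕ, p = 2 ^ e + 1) :
    ∃ k, k ≠ X.o ∧ X.d k = 1 ∧ X.th k = 1 := by
  classical
  obtain ⟨C, hd, hK, -⟩ := cdx3 hPAR hMZZ hDRE hTSU hMUK hSTL hHEC hAMG hRAT I p X Q hB
  obtain ⟨k, hk, hkd⟩ := C.main hf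
  rw [hK] at hk
  simp only [Finset.mem_filter, Finset.mem_univ, true_and] at hk
  rw [hd] at hkd
  exact ⟨k, hk.2.2, hkd, X.th_of k hk.1 hk.2.1⟩

end Pool.Agent.Helper94.OT
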