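import Pool.Agent.Helper94.OT.Cmb

/-! # Project OT (MP_2b6189_al): the combinatorial data, without any condition on the cofactor
(adapted from the module CDX of helper60) -/

set_option autoImplicit false

namespace Pool.Agent.Helper94.OT

open Matrix ComplexConjugate Pool.Agent.Helper94.YF Pool.Agent.Helper94.YG
open Pool.Agent.Helper89.OS Pool.Agent.Helper60.OS

open Classical in
theorem cdx2 (hMZZ : StMZZ) (hDRE : StDRE) (hTSU : StTSU) (hMUK : StMUK) (hSTL : StSTL)
    (hHEC : StHEC) (hAMG : StAMG) (hRAT : StRAT) (I : Type) [Fintype I] [DecidableEq I] (p : ℕ)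
    (X : PD I p 1) (Q : ℂ → Prop) (hB : Blk X Q) :
    ∃ C : CD2 I p, C.d = X.d ∧
      (C.K = Finset.univ.filter fun k => X.y k ≠ 0 ∧ X.t k = 1 ∧ k ≠ X.o) ∧
      C.y = X.y ∧ C.O = Orb X ∧ C.g = (p : ℤ) - X.y X.o ∧
      ∀ k ∈ C.K, C.s k = 1 → X.z k = 0 := by
  have : NeZero p := ⟨X.prime.ne_zero⟩
  obtain ⟨-, hsq, ⟨j0, hj0y, hj0t⟩, hev, hg2, hx1, -⟩ := hMZZ I p X
  obtain ⟨hD1, hD2, hD3, hD4⟩ := hDRE hSTL hHEC hMZZ I p X Q hB
  have hT := hTSU hSTL hHEC hMZZ hRAT I p X Q hB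
  have hM := hMUK hTSU hAMG hSTL hHEC hMZZ hRAT I p X Q hB
  set x : ℤ := X.y X.o with hx
  set g : ℤ := (p : ℤ) - x with hg
  have hpp : (2 : ℤ) ≤ p := by exact_mod_cast X.prime.two_le
  have hg0 : g ≠ 0 := by omega
  -- the torus
  have hinv : ∀ c k, X.pi c⁻¹ (X.pi c k) = k := by
    intro c k
    rw [← X.pi_mul, inv_mul_cancel, X.pi_one]
  have hpio : ∀ c k, X.pi c k = X.o → k = X.o := by
    intro c k h
    rw [← hinv c k, h, X.pi_o]
  have hpit : ∀ c k, X.t k = 1 → X.t (X.pi c k) = 1 := by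
    intro c k h
    rw [X.pi_t, h, one_pow]
  have hOmem : ∀ k j, j ∈ Orb X k ↔ ∃ c, X.pi c k = j := by
    intro k j
    simp [Orb]
  set K : Finset I := Finset.univ.filter fun k => X.y k ≠ 0 ∧ X.t k = 1 ∧ k ≠ X.o with hK
  have hKm : ∀ k, k ∈ K ↔ X.y k ≠ 0 ∧ X.t k = 1 ∧ k ≠ X.o := by
    intro k
    simp [hK]
  have hOK : ∀ k ∈ K, Orb X k ⊆ K := by
    intro k hk j hj
    obtain ⟨c, rfl⟩ := (hOmem k j).1 hj
    obtain ⟨h1, h2, h3⟩ := (hKm k).1 hk
    rw [hKm]
    refine ⟨by rw [X.pi_y]; exact h1, hpit c k h2, fun h => h3 (hpio c k h)⟩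
  have hOs : ∀ k ∈ K, k ∈ Orb X k := fun k _ => (hOmem k k).2 ⟨1, X.pi_one k⟩
  have hOy : ∀ k ∈ K, ∀ j ∈ Orb X k, X.y j = X.y k ∧ X.d j = X.d k := by
    intro k _ j hj
    obtain ⟨c, rfl⟩ := (hOmem k j).1 hj
    exact ⟨X.pi_y c k, X.pi_d c k⟩
  have hOe : ∀ k ∈ K, ∀ j ∈ Orb X k, Orb X j = Orb X k := by
    intro k _ j hj
    obtain ⟨c, rfl⟩ := (hOmem k j).1 hj
    ext i
    rw [hOmem, hOmem]
    constructor
    · rintro ⟨c', rfl⟩
      exact ⟨c' * c, X.pi_mul c' c k⟩
    · rintro ⟨c', rfl⟩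
      refine ⟨c' * c⁻¹, ?_⟩
      rw [X.pi_mul, hinv]
  have hOg : ∀ k ∈ K, g ∣ ((Orb X k).card : ℤ) * X.y k := by
    intro k hk
    obtain ⟨h1, h2, h3⟩ := (hKm k).1 hk
    exact (hT k h1 h2 h3).2
  -- sums over K
  have hsum : ∀ f : I → ℤ, (∀ k, X.y k = 0 → f k = 0) →
      ∑ k ∈ K, f k = (∑ k, if X.t k = 1 then f k else 0) - f X.o := by
    intro f hf
    have h1 : (∑ k, if X.t k = 1 then f k else 0) =
        ∑ k ∈ Finset.univ.filter (fun k => X.t k = 1), f k := by
      rw [Finset.sum_filter]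
    have h2 : X.o ∈ Finset.univ.filter (fun k => X.t k = 1) := by
      simp [X.t_o]
    have h3 := Finset.sum_erase_add (Finset.univ.filter (fun k => X.t k = 1)) f h2
    have h4 : ∑ k ∈ K, f k = ∑ k ∈ (Finset.univ.filter (fun k => X.t k = 1)).erase X.o, f k := by
      apply Finset.sum_subset
      · intro k hk
        obtain ⟨h1, h2, h3⟩ := (hKm k).1 hk
        simp [h2, h3]
      · intro k hk hkK
        rw [Finset.mem_erase, Finset.mem_filter] at hk
        apply hf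
        by_contra hy
        exact hkK ((hKm k).2 ⟨hy, hk.2.2, hk.1⟩)
    rw [h1, h4]
    linarith
  have hsqK : ∑ k ∈ K, X.y k ^ 2 = g * (p + 1 - g) := by
    rw [hsum (fun k => X.y k ^ 2) (by intro k hk; simp [hk]), hsq, hg]
    ring
  have hdimK : ∑ k ∈ K, X.y k * (X.d k : ℤ) = (p * X.z X.o - 1) + g := by
    rw [hsum (fun k => X.y k * (X.d k : ℤ)) (by intro k hk; simp [hk]), hD3, X.d_o, hg]
    push_cast
    ring
  have hgd : g ∣ ∑ k ∈ K, X.y k * (X.d k : ℤ) := by
    apply dvd_orbits K (Orb X) _ g hOK hOs hOe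
    · intro k hk j hj
      rw [(hOy k hk j hj).1, (hOy k hk j hj).2]
    · intro k hk
      rw [← mul_assoc]
      exact Dvd.dvd.mul_right (hOg k hk) _
  have hgE : g ∣ (p : ℤ) * X.z X.o - 1 := by
    rw [hdimK] at hgd
    exact (Int.dvd_add_left (dvd_refl g)).1 hgd
  obtain ⟨D, hD⟩ := hgE
  have hpD : ¬ (p : ℤ) ∣ D := by
    intro h
    have h1 : (p : ℤ) ∣ (p : ℤ) * X.z X.o - 1 := by
      rw [hD]; exact Dvd.dvd.mul_left h g
    have h2 : (p : ℤ) ∣ 1 := by
      have := dvd_sub (dvd_mul_right (p : ℤ) (X.z X.o)) h1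
      simpa using this
    have h3 := Int.le_of_dvd one_pos h2
    omega
  have hrel : ∀ k ∈ K, (X.d k : ℤ) = D * X.y k + p * X.z k := by
    intro k hk
    obtain ⟨h1, h2, h3⟩ := (hKm k).1 hk
    have h4 := hD1 k h1 h2 h3
    rw [hD] at h4
    apply mul_left_cancel₀ hg0
    rw [h4]
    ring
  have hj0 : (X.d j0 : ℤ) = D * X.y j0 := by
    have h4 := hD2 j0 hj0y hj0t
    rw [hD] at h4
    apply mul_left_cancel₀ hg0
    rw [h4]
    ring
  have hp3 : 3 ≤ p := by
    have h1 := X.prime.two_le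
    obtain ⟨r, hr⟩ := X.p_odd
    omega
  have hdodd : ∀ k, Odd (X.d k) := by
    intro k
    have h1 : Odd (p * X.m) := X.p_odd.mul X.m_odd
    exact h1.of_dvd_nat (X.d_dvd k)
  have hDodd : Odd D := by
    have h1 : Odd ((X.d j0 : ℕ) : ℤ) := by exact_mod_cast hdodd j0
    rw [hj0] at h1
    exact (Int.odd_mul.1 h1).1
  have hdz : ∀ k ∈ K, (X.d k : ℤ) ∣ X.z k := by
    intro k hk
    obtain ⟨h1, h2, h3⟩ := (hKm k).1 hk
    have h4 : (X.d k : ℤ) ∣ p * X.z k := X.z_dvd k
    have h5 : IsCoprime (X.d k : ℤ) (p : ℤ) := by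
      rw [Nat.isCoprime_iff_coprime]
      exact ((Nat.Prime.coprime_iff_not_dvd X.prime).2 (hB.d_nd k h1)).symm
    exact h5.dvd_of_dvd_mul_left h4
  have hsy : ∀ k ∈ K, D * X.y k = X.d k * (1 - p * (X.z k / X.d k)) := by
    intro k hk
    have h1 := hrel k hk
    have h2 := Int.mul_ediv_cancel' (hdz k hk)
    linear_combination -h1 + p * h2
  refine ⟨{ K := K, y := X.y, d := X.d, s := fun k => 1 - p * (X.z k / X.d k)
            st := X.st, O := Orb X, g := g, D := D
            p_ge := hp3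
            g_ge := hg2
            g_le := by omega
            g_even := hev
            y_ne := fun k hk => ((hKm k).1 hk).1
            d_pos := X.d_pos
            sq := hsqK
            dim := by rw [hdimK, hD]; ring
            d_odd := hdodd
            sy := hsy
            s1 := fun k _ => ⟨-(X.z k / X.d k), by ring⟩
            D_odd := hDodd
            gD := ⟨X.z X.o, by linarith⟩
            O_K := hOK
            O_self := hOs
            O_y := hOy
            O_eq := hOe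
            O_g := hOg
            st_K := ?_
            st_st := X.st_st
            st_ne := ?_
            st_y := fun k => ⟨X.y_st k, X.d_st k⟩
            muk := ?_ }, rfl, ?_, rfl, rfl, rfl, ?_⟩
  · intro k hk
    obtain ⟨h1, h2, h3⟩ := (hKm k).1 hk
    rw [hKm]
    refine ⟨by rw [X.y_st]; exact h1, by rw [X.t_st]; exact h2, ?_⟩
    intro h
    apply h3
    rw [← X.st_st k, h, X.st_o]
  · intro k hk h
    exact ((hKm k).1 hk).2.2 (X.nsd k h)
  · intro k hk hy hc
    obtain ⟨h1, h2, h3⟩ := (hKm k).1 hk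
    have h4 := hM k h1 h2 h3 hy hc
    have hoN : X.o ∉ K \ Orb X k := by
      intro h
      rw [Finset.mem_sdiff] at h
      exact ((hKm _).1 h.1).2.2 rfl
    rw [← Finset.card_insert_of_notMem hoN]
    refine le_trans (Finset.card_le_card ?_) h4
    intro j hj
    rw [Finset.mem_insert] at hj
    rw [Finset.mem_filter]
    rcases hj with rfl | hj
    · refine ⟨Finset.mem_univ _, ?_, X.t_o, ?_⟩
      · intro h0
        rw [← hx] at h0
        omega
      · intro hmem
        obtain ⟨c, hc'⟩ := (hOmem _ _).1 hmem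
        exact h3 (hpio c k hc')
    · rw [Finset.mem_sdiff] at hj
      obtain ⟨h5, h6, -⟩ := (hKm j).1 hj.1
      exact ⟨Finset.mem_univ _, h5, h6, hj.2⟩
  · ext k
    simp [hK]
  · intro k hk hs
    have h1 := hdz k hk
    have h2 := Int.mul_ediv_cancel' h1
    have h3 : (1 : ℤ) - p * (X.z k / X.d k) = 1 := hs
    have h4 : (p : ℤ) * (X.z k / X.d k) = 0 := by linarith
    have hp0 : (p : ℤ) ≠ 0 := by omega
    rcases mul_eq_zero.1 h4 with h5 | h5
    · exact absurd h5 hp0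
    · rw [← h2, h5, mul_zero]

end Pool.Agent.Helper94.OT
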