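import Pool.Agent.Helper60.OS.M_CDX

/-! # Project OT (MP_2b6189_al): the combinatorial part without any condition on the cofactor -/

set_option autoImplicit false

namespace Pool.Agent.Helper94.OT

open Pool.Agent.Helper89.OS Pool.Agent.Helper60.OS

/-- Combinatorial data: `K` is `{k | y k ≠ 0, t k = 1, k ≠ o}`. -/
structure CD2 (I : Type) [DecidableEq I] (p : ℕ) where
  K : Finset I
  y : I → ℤ
  d : I → ℕ
  s : I → ℤ
  st : I → I
  O : I → Finset I
  g : ℤ
  D : ℤ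
  p_ge : 3 ≤ p
  g_ge : 2 ≤ g
  g_le : g ≤ p - 1
  g_even : Even g
  y_ne : ∀ k ∈ K, y k ≠ 0
  d_pos : ∀ k, 0 < d k
  d_odd : ∀ k, Odd (d k)
  sq : ∑ k ∈ K, y k ^ 2 = g * (p + 1 - g)
  dim : ∑ k ∈ K, y k * (d k : ℤ) = g * (D + 1)
  sy : ∀ k ∈ K, D * y k = d k * s k
  s1 : ∀ k ∈ K, (p : ℤ) ∣ s k - 1
  D_odd : Odd D
  gD : (p : ℤ) ∣ g * D + 1
  O_K : ∀ k ∈ K, O k ⊆ K
  O_self : ∀ k ∈ K, k ∈ O k
  O_y : ∀ k ∈ K, ∀ j ∈ O k, y j = y k ∧ d j = d k
  O_eq : ∀ k ∈ K, ∀ j ∈ O k, O j = O k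
  O_g : ∀ k ∈ K, g ∣ ((O k).card : ℤ) * y k
  st_K : ∀ k ∈ K, st k ∈ K
  st_st : ∀ k, st (st k) = k
  st_ne : ∀ k ∈ K, st k ≠ k
  st_y : ∀ k, y (st k) = y k ∧ d (st k) = d k
  muk : ∀ k ∈ K, y k ^ 2 = 1 → ((O k).card : ℤ) = g → (K \ O k).card + 1 ≤ p

namespace CD2

variable {I : Type} [DecidableEq I] {p : ℕ} (C : CD2 I p)

/-- the elements with `s k = 1` -/
def A : Finset I := C.K.filter fun k => C.s k = 1

theorem s_const {k j : I} (hk : k ∈ C.K) (hj : j ∈ C.K) (hy : C.y j = C.y k) (hd : C.d j = C.d k) :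
    C.s j = C.s k := by
  have h1 := C.sy k hk
  have h2 := C.sy j hj
  rw [hy, hd, h1] at h2
  have hd0 : (C.d k : ℤ) ≠ 0 := by exact_mod_cast (C.d_pos k).ne'
  exact (mul_left_cancel₀ hd0 h2).symm

theorem O_A {k : I} (hk : k ∈ C.A) : C.O k ⊆ C.A := by
  obtain ⟨h1, h2⟩ := Finset.mem_filter.1 hk
  intro j hj
  have hjK := C.O_K k h1 hj
  refine Finset.mem_filter.2 ⟨hjK, ?_⟩
  rw [C.s_const h1 hjK (C.O_y k h1 j hj).1 (C.O_y k h1 j hj).2, h2]

theorem O_B {k : I} (hk : k ∈ C.K \ C.A) : C.O k ⊆ C.K \ C.A := by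
  obtain ⟨h1, h2⟩ := Finset.mem_sdiff.1 hk
  intro j hj
  have hjK := C.O_K k h1 hj
  refine Finset.mem_sdiff.2 ⟨hjK, fun hjA => h2 ?_⟩
  have h3 := (Finset.mem_filter.1 hjA).2
  refine Finset.mem_filter.2 ⟨h1, ?_⟩
  rw [← C.s_const h1 hjK (C.O_y k h1 j hj).1 (C.O_y k h1 j hj).2, h3]

theorem exM : ∃ M : ℤ, ∑ k ∈ C.A, C.y k ^ 2 = C.g * M := by
  have hAK : ∀ k ∈ C.A, k ∈ C.K := fun k hk => (Finset.mem_filter.1 hk).1
  have := dvd_orbits C.A C.O (fun k => C.y k ^ 2) C.g (fun k hk => C.O_A hk)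
    (fun k hk => C.O_self k (hAK k hk)) (fun k hk => C.O_eq k (hAK k hk))
    (fun k hk j hj => by
      show C.y j ^ 2 = C.y k ^ 2
      rw [(C.O_y k (hAK k hk) j hj).1])
    (fun k hk => by
      show C.g ∣ ((C.O k).card : ℤ) * C.y k ^ 2
      rw [pow_two, ← mul_assoc]
      exact Dvd.dvd.mul_right (C.O_g k (hAK k hk)) _)
  exact this

theorem AK : C.A ⊆ C.K := Finset.filter_subset _ _

theorem D_ne : C.D ≠ 0 := by
  intro h
  have := C.D_odd
  rw [h] at this
  exact absurd this (by decide)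

/-- the bounds for the elements outside `A` -/
theorem bnd (k : I) (hk : k ∈ C.K \ C.A) :
    -(|C.D| * C.y k ^ 2) ≤ (p - 1) * (C.D.sign * (C.y k * C.d k)) ∧
    (p + 1) * (C.D.sign * (C.y k * C.d k)) ≤ |C.D| * C.y k ^ 2 := by
  obtain ⟨h1, h2⟩ := Finset.mem_sdiff.1 hk
  have hs1 : C.s k ≠ 1 := fun h => h2 (Finset.mem_filter.2 ⟨h1, h⟩)
  obtain ⟨u, hu⟩ := C.s1 k h1
  have hu0 : u ≠ 0 := by
    rintro rfl
    apply hs1
    linarith
  have hsy := C.sy k h1
  have hp : (3 : ℤ) ≤ p := by exact_mod_cast C.p_ge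
  have hD := C.D_ne
  have hA : |C.D| = C.D.sign * C.D := by
    rw [← Int.sign_mul_self_eq_abs]
  have hAp : 0 < |C.D| := abs_pos.2 hD
  -- X * s = |D| y ^ 2
  set X : ℤ := C.D.sign * (C.y k * C.d k) with hX
  have hXs : X * C.s k = |C.D| * C.y k ^ 2 := by
    rw [hX, hA]
    linear_combination (-(C.D.sign * C.y k)) * hsy
  have hs : C.s k = 1 + p * u := by linarith
  have hpos : 0 < |C.D| * C.y k ^ 2 := mul_pos hAp (by
    have := C.y_ne k h1
    positivity)
  rcases lt_or_gt_of_ne hu0 with hneg | hposu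
  · -- s ≤ 1 - p
    have hs2 : C.s k ≤ 1 - p := by rw [hs]; nlinarith
    have hX0 : X < 0 := by
      by_contra h
      push Not at h
      nlinarith
    constructor
    · nlinarith
    · nlinarith
  · have hs2 : p + 1 ≤ C.s k := by rw [hs]; nlinarith
    have hX0 : 0 < X := by
      by_contra h
      push Not at h
      nlinarith
    constructor
    · nlinarith
    · nlinarith

/-- the two basic inequalities -/
theorem ineq (M : ℤ) (hM : ∑ k ∈ C.A, C.y k ^ 2 = C.g * M) :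
    0 ≤ M ∧ M ≤ p + 1 - C.g ∧
    ∑ k ∈ C.K \ C.A, C.y k ^ 2 = C.g * (p + 1 - C.g - M) ∧
    ∑ k ∈ C.K \ C.A, C.D.sign * (C.y k * C.d k) = C.g * (|C.D| * (1 - M) + C.D.sign) ∧
    -(|C.D| * (p + 1 - C.g - M)) ≤ (p - 1) * (|C.D| * (1 - M) + C.D.sign) ∧
    (p + 1) * (|C.D| * (1 - M) + C.D.sign) ≤ |C.D| * (p + 1 - C.g - M) := by
  have hg : 0 < C.g := by have := C.g_ge; omega
  have hA : |C.D| = C.D.sign * C.D := by
    rw [← Int.sign_mul_self_eq_abs]
  have h0 : 0 ≤ M := by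
    have : 0 ≤ ∑ k ∈ C.A, C.y k ^ 2 := Finset.sum_nonneg fun k _ => sq_nonneg _
    rw [hM] at this
    by_contra h
    push Not at h
    nlinarith
  have hB : ∑ k ∈ C.K \ C.A, C.y k ^ 2 = C.g * (p + 1 - C.g - M) := by
    have h1 := Finset.sum_sdiff (f := fun k => C.y k ^ 2) C.AK
    rw [C.sq, hM] at h1
    linarith
  have h1 : M ≤ p + 1 - C.g := by
    have : 0 ≤ ∑ k ∈ C.K \ C.A, C.y k ^ 2 := Finset.sum_nonneg fun k _ => sq_nonneg _
    rw [hB] at this
    by_contra h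
    push Not at h
    nlinarith
  have hAs : ∑ k ∈ C.A, C.D.sign * (C.y k * C.d k) = |C.D| * (C.g * M) := by
    rw [← hM, Finset.mul_sum]
    refine Finset.sum_congr rfl fun k hk => ?_
    obtain ⟨h2, h3⟩ := Finset.mem_filter.1 hk
    have h4 := C.sy k h2
    rw [h3] at h4
    rw [hA]
    linear_combination (-(C.D.sign * C.y k)) * h4
  have hX : ∑ k ∈ C.K \ C.A, C.D.sign * (C.y k * C.d k) =
      C.g * (|C.D| * (1 - M) + C.D.sign) := by
    have h2 := Finset.sum_sdiff (f := fun k => C.D.sign * (C.y k * (C.d k : ℤ))) C.AK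
    rw [← Finset.mul_sum (s := C.K), C.dim] at h2
    rw [hAs] at h2
    rw [hA] at h2 ⊢
    linarith
  refine ⟨h0, h1, hB, hX, ?_, ?_⟩
  · have h2 : ∑ k ∈ C.K \ C.A, -(|C.D| * C.y k ^ 2) ≤
        ∑ k ∈ C.K \ C.A, (p - 1) * (C.D.sign * (C.y k * C.d k)) :=
      Finset.sum_le_sum fun k hk => (C.bnd k hk).1
    rw [← Finset.mul_sum, hX, Finset.sum_neg_distrib, ← Finset.mul_sum, hB] at h2
    have h3 : C.g * (-(|C.D| * (p + 1 - C.g - M))) ≤
        C.g * ((p - 1) * (|C.D| * (1 - M) + C.D.sign)) := by linarith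
    exact le_of_mul_le_mul_left h3 hg
  · have h2 : ∑ k ∈ C.K \ C.A, (p + 1) * (C.D.sign * (C.y k * C.d k)) ≤
        ∑ k ∈ C.K \ C.A, |C.D| * C.y k ^ 2 :=
      Finset.sum_le_sum fun k hk => (C.bnd k hk).2
    rw [← Finset.mul_sum, hX, ← Finset.mul_sum, hB] at h2
    have h3 : C.g * ((p + 1) * (|C.D| * (1 - M) + C.D.sign)) ≤
        C.g * (|C.D| * (p + 1 - C.g - M)) := by linarith
    exact le_of_mul_le_mul_left h3 hg

theorem sign_cases : (C.D.sign = 1 ∧ |C.D| = C.D) ∨ (C.D.sign = -1 ∧ |C.D| = -C.D) := by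
  rcases lt_or_gt_of_ne C.D_ne with h | h
  · right
    exact ⟨Int.sign_eq_neg_one_of_neg h, abs_of_neg h⟩
  · left
    exact ⟨Int.sign_eq_one_of_pos h, abs_of_pos h⟩

/-- the size of the orbit of an element, times `|y|`, is at least `g` -/
theorem orb_ge {k : I} (hk : k ∈ C.K) : C.g ≤ ((C.O k).card : ℤ) * |C.y k| := by
  have h1 := C.O_g k hk
  have h2 : C.g ∣ ((C.O k).card : ℤ) * |C.y k| := by
    rcases abs_choice (C.y k) with h | h
    · rw [h]; exact h1
    · rw [h, mul_neg]; exact (dvd_neg).2 h1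
  refine Int.le_of_dvd (mul_pos ?_ (abs_pos.2 (C.y_ne k hk))) h2
  exact_mod_cast Finset.card_pos.2 ⟨k, C.O_self k hk⟩

theorem orb_sq {k : I} {S : Finset I} (hk : k ∈ C.K) (h : C.O k ⊆ S) :
    ((C.O k).card : ℤ) * C.y k ^ 2 ≤ ∑ j ∈ S, C.y j ^ 2 := by
  have h1 : ∑ j ∈ C.O k, C.y j ^ 2 = ((C.O k).card : ℤ) * C.y k ^ 2 := by
    rw [Finset.sum_congr rfl (fun j hj => by rw [(C.O_y k hk j hj).1]), Finset.sum_const,
      nsmul_eq_mul]
  rw [← h1]
  exact Finset.sum_le_sum_of_subset_of_nonneg h fun j _ _ => sq_nonneg _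

/-- if `∑ y ^ 2 = g` over a set which is a union of orbits, then the set is one orbit with `|y| = 1` -/
theorem one_orbit {S : Finset I} (hS : ∀ k ∈ S, k ∈ C.K ∧ C.O k ⊆ S)
    (h : ∑ j ∈ S, C.y j ^ 2 = C.g) :
    ∃ k ∈ S, S = C.O k ∧ C.y k ^ 2 = 1 ∧ ((C.O k).card : ℤ) = C.g := by
  have hg : 2 ≤ C.g := C.g_ge
  have hne : S.Nonempty := by
    rw [Finset.nonempty_iff_ne_empty]
    rintro rfl
    rw [Finset.sum_empty] at h
    omega
  obtain ⟨k, hk⟩ := hne
  obtain ⟨h1, h2⟩ := hS k hk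
  have h3 := C.orb_ge h1
  have h4 := C.orb_sq h1 h2
  rw [h] at h4
  have hc : (0 : ℤ) < (C.O k).card := by
    exact_mod_cast Finset.card_pos.2 ⟨k, C.O_self k h1⟩
  have hy : 0 < |C.y k| := abs_pos.2 (C.y_ne k h1)
  have hy2 : C.y k ^ 2 = |C.y k| ^ 2 := (sq_abs _).symm
  rw [hy2] at h4
  have h5 : |C.y k| = 1 := by
    by_contra hne
    have : 2 ≤ |C.y k| := by omega
    nlinarith
  rw [h5] at h3 h4
  have h6 : ((C.O k).card : ℤ) = C.g := by
    apply le_antisymm <;> linarith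
  refine ⟨k, hk, ?_, by rw [hy2, h5]; norm_num, h6⟩
  apply le_antisymm _ h2
  intro j hj
  by_contra hjO
  have h7 : ∑ i ∈ S, C.y i ^ 2 = ∑ i ∈ S \ C.O k, C.y i ^ 2 + ∑ i ∈ C.O k, C.y i ^ 2 :=
    (Finset.sum_sdiff h2).symm
  have h8 : ∑ i ∈ C.O k, C.y i ^ 2 = C.g := by
    rw [Finset.sum_congr rfl (fun i hi => by rw [(C.O_y k h1 i hi).1, hy2, h5]),
      Finset.sum_const, nsmul_eq_mul, h6]
    ring
  have h9 : C.y j ^ 2 ≤ ∑ i ∈ S \ C.O k, C.y i ^ 2 :=
    Finset.single_le_sum (f := fun i => C.y i ^ 2) (fun i _ => sq_nonneg _)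
      (Finset.mem_sdiff.2 ⟨hj, hjO⟩)
  have h10 : 0 < C.y j ^ 2 := by
    have := C.y_ne j (hS j hj).1
    positivity
  rw [h, h8] at h7
  linarith

/-- the case `g = p - 1` -/
theorem caseA (hg : C.g = p - 1) : ∃ k ∈ C.K, C.d k = 1 := by
  obtain ⟨M, hM⟩ := C.exM
  obtain ⟨h0, h1, hB, hX, i1, i2⟩ := C.ineq M hM
  have hp : (3 : ℤ) ≤ p := by exact_mod_cast C.p_ge
  have hD := C.D_ne
  have hAp : 0 < |C.D| := abs_pos.2 hD
  have hM2 : M ≤ 2 := by omega
  interval_cases M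
  · -- M = 0
    exfalso
    rcases C.sign_cases with ⟨hs, ha⟩ | ⟨hs, ha⟩
    · rw [hs, hg] at i2
      nlinarith
    · rw [hs, hg] at i2
      have h2 : |C.D| ≤ 2 := by nlinarith
      have h3 : C.D = -1 := by
        have h4 := C.D_odd
        obtain ⟨r, hr⟩ := h4
        omega
      have h4 := C.gD
      rw [h3, hg] at h4
      have h5 : (p : ℤ) ∣ 2 := by
        have h6 := dvd_add h4 (dvd_refl (p : ℤ))
        have h7 : ((p : ℤ) - 1) * -1 + 1 + p = 2 := by ring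
        rwa [h7] at h6
      have := Int.le_of_dvd (by norm_num) h5
      omega
  · -- M = 1
    have hB' : ∑ k ∈ C.K \ C.A, C.y k ^ 2 = C.g := by
      rw [hB, hg]; ring
    obtain ⟨k, hk, hS, hy, hc⟩ := C.one_orbit (S := C.K \ C.A)
      (fun k hk => ⟨(Finset.mem_sdiff.1 hk).1, C.O_B hk⟩) hB'
    have hkK := (Finset.mem_sdiff.1 hk).1
    refine ⟨k, hkK, ?_⟩
    have h2 : ∑ j ∈ C.K \ C.A, C.D.sign * (C.y j * C.d j) =
        C.g * (C.D.sign * (C.y k * C.d k)) := by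
      rw [hS, Finset.sum_congr rfl (fun j hj => by
        rw [(C.O_y k hkK j hj).1, (C.O_y k hkK j hj).2]), Finset.sum_const, nsmul_eq_mul, hc]
    rw [hX] at h2
    have hg0 : C.g ≠ 0 := by omega
    have h3 := mul_left_cancel₀ hg0 h2
    have hs0 : C.D.sign ≠ 0 := by
      rw [Ne, Int.sign_eq_zero_iff_zero]; exact hD
    have h4 : C.D.sign * 1 = C.D.sign * (C.y k * C.d k) := by
      rw [← h3]; ring
    have h5 := mul_left_cancel₀ hs0 h4
    have h6 : (C.d k : ℤ) ∣ 1 := ⟨C.y k, by rw [h5]; ring⟩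
    have h7 : C.d k ∣ 1 := by exact_mod_cast h6
    exact Nat.dvd_one.1 h7
  · -- M = 2
    have hB' : ∑ k ∈ C.K \ C.A, C.y k ^ 2 = 0 := by
      rw [hB, hg]; ring
    have hempty : C.K \ C.A = ∅ := by
      by_contra hne
      obtain ⟨k, hk⟩ := Finset.nonempty_iff_ne_empty.2 hne
      have h9 : C.y k ^ 2 ≤ ∑ i ∈ C.K \ C.A, C.y i ^ 2 :=
        Finset.single_le_sum (f := fun i => C.y i ^ 2) (fun i _ => sq_nonneg _) hk
      have h10 : 0 < C.y k ^ 2 := by
        have := C.y_ne k (Finset.mem_sdiff.1 hk).1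
        positivity
      rw [hB'] at h9
      linarith
    rw [hempty, Finset.sum_empty] at hX
    have hg0 : C.g ≠ 0 := by omega
    have h2 : |C.D| * (1 - 2) + C.D.sign = 0 := by
      rcases mul_eq_zero.1 hX.symm with h | h
      · exact absurd h hg0
      · exact h
    have hD1 : C.D = 1 := by
      rcases C.sign_cases with ⟨hs, ha⟩ | ⟨hs, ha⟩
      · rw [hs, ha] at h2; linarith
      · rw [hs] at h2; nlinarith
    have hneA : C.A.Nonempty := by
      rw [Finset.nonempty_iff_ne_empty]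
      intro h
      rw [h, Finset.sum_empty] at hM
      have := C.g_ge
      omega
    obtain ⟨k, hk⟩ := hneA
    obtain ⟨hkK, hsk⟩ := Finset.mem_filter.1 hk
    refine ⟨k, hkK, ?_⟩
    have hyd : C.y k = C.d k := by
      have := C.sy k hkK
      rw [hD1, hsk] at this
      linarith
    have h3 := C.orb_sq hkK (C.O_A hk)
    rw [hM] at h3
    have h4 := C.orb_ge hkK
    have hc : (0 : ℤ) < (C.O k).card := by
      exact_mod_cast Finset.card_pos.2 ⟨k, C.O_self k hkK⟩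
    have hdp : (0 : ℤ) < C.d k := by exact_mod_cast C.d_pos k
    rw [hyd] at h3 h4
    rw [abs_of_pos hdp] at h4
    have h5 : (C.d k : ℤ) ≤ 2 := by
      by_contra h
      push Not at h
      nlinarith
    have h6 := C.d_odd k
    have h7 : C.d k ≤ 2 := by exact_mod_cast h5
    obtain ⟨r, hr⟩ := h6
    omega

/-- the case `p = 5`, `g = 2` -/
theorem caseB (hp5 : p = 5) (hg : C.g = 2) : ∃ k ∈ C.K, C.d k = 1 := by
  subst hp5
  obtain ⟨M, hM⟩ := C.exM
  obtain ⟨h0, h1, hB, hX, i1, i2⟩ := C.ineq M hM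
  have hD := C.D_ne
  have hAp : 0 < |C.D| := abs_pos.2 hD
  have hgD := C.gD
  have hDo := C.D_odd
  rw [hg] at h1 hB hX i1 i2 hgD
  have hM4 : M ≤ 4 := by push_cast at h1; omega
  push_cast at i1 i2 hB hX
  interval_cases M
  · -- M = 0
    rcases C.sign_cases with ⟨hs, ha⟩ | ⟨hs, ha⟩
    · rw [hs] at i2
      exfalso
      nlinarith
    · rw [hs] at i2 hX
      have hD3 : C.D = -3 := by
        obtain ⟨r, hr⟩ := hDo
        omega
      -- equality everywhere
      have heq : ∀ k ∈ C.K \ C.A, |C.D| * C.y k ^ 2 -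
          (5 + 1) * (C.D.sign * (C.y k * C.d k)) = 0 := by
        have hnn : ∀ k ∈ C.K \ C.A, 0 ≤ |C.D| * C.y k ^ 2 -
          (5 + 1) * (C.D.sign * (C.y k * C.d k)) := by
          intro k hk
          have := (C.bnd k hk).2
          push_cast at this
          linarith
        rw [← Finset.sum_eq_zero_iff_of_nonneg hnn, Finset.sum_sub_distrib, ← Finset.mul_sum,
          ← Finset.mul_sum, hB, hs, hX, ha, hD3]
        norm_num
      have hyk : ∀ k ∈ C.K, C.y k = -2 * C.d k := by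
        intro k hk
        by_cases hkA : k ∈ C.A
        · exfalso
          have h9 : C.y k ^ 2 ≤ ∑ i ∈ C.A, C.y i ^ 2 :=
            Finset.single_le_sum (f := fun i => C.y i ^ 2) (fun i _ => sq_nonneg _) hkA
          rw [hM] at h9
          have h10 : 0 < C.y k ^ 2 := by
            have := C.y_ne k hk
            positivity
          linarith
        · have h2 := heq k (Finset.mem_sdiff.2 ⟨hk, hkA⟩)
          rw [ha, hs, hD3] at h2
          have h3 : C.y k * (3 * (C.y k + 2 * C.d k)) = 0 := by linarith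
          rcases mul_eq_zero.1 h3 with h | h
          · exact absurd h (C.y_ne k hk)
          · linarith
      have hsq := C.sq
      rw [hg] at hsq
      have h2 : ∑ k ∈ C.K, (C.d k : ℤ) ^ 2 = 2 := by
        have h3 : ∑ k ∈ C.K, C.y k ^ 2 = 4 * ∑ k ∈ C.K, (C.d k : ℤ) ^ 2 := by
          rw [Finset.mul_sum]
          refine Finset.sum_congr rfl fun k hk => ?_
          rw [hyk k hk]
          ring
        rw [h3] at hsq
        push_cast at hsq
        linarith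
      have hne : C.K.Nonempty := by
        rw [Finset.nonempty_iff_ne_empty]
        intro h
        rw [h, Finset.sum_empty] at h2
        norm_num at h2
      obtain ⟨k, hk⟩ := hne
      refine ⟨k, hk, ?_⟩
      have h4 : (C.d k : ℤ) ^ 2 ≤ ∑ i ∈ C.K, (C.d i : ℤ) ^ 2 :=
        Finset.single_le_sum (f := fun i => (C.d i : ℤ) ^ 2) (fun i _ => sq_nonneg _) hk
      rw [h2] at h4
      have h5 : (0 : ℤ) < C.d k := by exact_mod_cast C.d_pos k
      have h6 : (C.d k : ℤ) < 2 := by nlinarith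
      have h7 : C.d k < 2 := by exact_mod_cast h6
      have h8 := C.d_pos k
      omega
  · -- M = 1
    exfalso
    have hA' : ∑ k ∈ C.A, C.y k ^ 2 = C.g := by rw [hM]; ring
    obtain ⟨k, hk, hS, hy, hc⟩ := C.one_orbit (S := C.A)
      (fun k hk => ⟨(Finset.mem_filter.1 hk).1, C.O_A hk⟩) hA'
    have hkK := (Finset.mem_filter.1 hk).1
    have hmuk := C.muk k hkK hy hc
    rw [← hS] at hmuk
    -- the number of elements outside `A` is even
    have heven : Even (C.K \ C.A).card := by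
      rw [← ZMod.natCast_eq_zero_iff_even]
      have h2 : ∑ j ∈ C.K \ C.A, (1 : ZMod 2) = 0 := by
        refine Finset.sum_involution (fun j _ => C.st j) ?_ ?_ ?_ ?_
        · intro j hj
          decide
        · intro j hj _
          exact C.st_ne j (Finset.mem_sdiff.1 hj).1
        · intro j hj
          obtain ⟨h3, h4⟩ := Finset.mem_sdiff.1 hj
          refine Finset.mem_sdiff.2 ⟨C.st_K j h3, fun h5 => h4 ?_⟩
          have h6 := (Finset.mem_filter.1 h5).2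
          refine Finset.mem_filter.2 ⟨h3, ?_⟩
          rw [← C.s_const h3 (C.st_K j h3) (C.st_y j).1 (C.st_y j).2, h6]
        · intro j hj
          exact C.st_st j
      simpa using h2
    have hB' : ∑ k ∈ C.K \ C.A, C.y k ^ 2 = 6 := by
      rw [hB]; norm_num
    have h3 : ∀ j ∈ C.K \ C.A, C.y j ^ 2 = 1 ∨ C.y j ^ 2 = 4 := by
      intro j hj
      have h9 : C.y j ^ 2 ≤ ∑ i ∈ C.K \ C.A, C.y i ^ 2 :=
        Finset.single_le_sum (f := fun i => C.y i ^ 2) (fun i _ => sq_nonneg _) hj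
      rw [hB'] at h9
      have h10 := C.y_ne j (Finset.mem_sdiff.1 hj).1
      have h11 : C.y j ≤ 2 := by nlinarith
      have h12 : -2 ≤ C.y j := by nlinarith
      have : C.y j = -2 ∨ C.y j = -1 ∨ C.y j = 1 ∨ C.y j = 2 := by omega
      rcases this with h | h | h | h <;> rw [h] <;> norm_num
    have h4 : (3 : ℤ) ∣ ∑ k ∈ C.K \ C.A, (C.y k ^ 2 - 1) := by
      apply Finset.dvd_sum
      intro j hj
      rcases h3 j hj with h | h <;> rw [h] <;> norm_num
    rw [Finset.sum_sub_distrib, hB', Finset.sum_const, nsmul_eq_mul, mul_one] at h4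
    obtain ⟨r, hr⟩ := heven
    have h5 : (C.K \ C.A).card = 0 := by omega
    rw [Finset.card_eq_zero] at h5
    rw [h5, Finset.sum_empty] at hB'
    norm_num at hB'
  · exfalso
    rcases C.sign_cases with ⟨hs, ha⟩ | ⟨hs, ha⟩
    · rw [hs] at i1
      have hD1 : C.D = 1 := by
        obtain ⟨r, hr⟩ := hDo
        omega
      rw [hD1] at hgD
      norm_num at hgD
    · rw [hs] at i1
      nlinarith
  · exfalso
    rcases C.sign_cases with ⟨hs, ha⟩ | ⟨hs, ha⟩ <;> rw [hs] at i1 <;> omega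
  · exfalso
    rcases C.sign_cases with ⟨hs, ha⟩ | ⟨hs, ha⟩ <;> rw [hs] at i1 <;> omega

theorem main (hp : p = 3 ∨ p = 5) : ∃ k ∈ C.K, C.d k = 1 := by
  have h1 := C.g_ge
  have h2 := C.g_le
  obtain ⟨r, hr⟩ := C.g_even
  rcases hp with h | h
  · subst h
    apply C.caseA
    push_cast at h2 ⊢
    omega
  · subst h
    push_cast at h2
    have : C.g = 2 ∨ C.g = 4 := by omega
    rcases this with h3 | h3
    · exact C.caseB rfl h3
    · apply C.caseA
      rw [h3]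
      norm_num

end CD2

end Pool.Agent.Helper94.OT
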