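import Pool.Agent.Helper94.OT.Cdx

/-! # Project OT (MP_2b6189_al): the combinatorial part for all Fermat primes -/

set_option autoImplicit false

namespace Pool.Agent.Helper94.OT

open Pool.Agent.Helper89.OS Pool.Agent.Helper60.OS

/-- The data `CD2` with the positivity from the Lagrangian algebra and the parity lemma. -/
structure CD3 (I : Type) [DecidableEq I] (p : ℕ) extends CD2 I p where
  pos : ∃ k ∈ K, 0 < y k
  par : ∀ k ∈ K, s k = 1 → ∃ N : ℕ, Odd N ∧ (p : ℤ) - 1 = N * ((O k).card : ℤ)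

namespace CD3

variable {I : Type} [DecidableEq I] {p : ℕ} (C : CD3 I p)

/-- For every odd prime `p`: the cofactor `N = (p - 1) / g` is an odd integer. -/
theorem dich : ∃ N : ℕ, Odd N ∧ (p : ℤ) - 1 = N * C.g := by
  obtain ⟨M, hM⟩ := C.exM
  obtain ⟨h0, h1, hB, hX, i1, i2⟩ := C.ineq M hM
  have hp : (3 : ℤ) ≤ p := by exact_mod_cast C.p_ge
  have hg2 := C.g_ge
  have hg1 := C.g_le
  have hD := C.D_ne
  have hAp : 0 < |C.D| := abs_pos.2 hD
  obtain ⟨c, hc⟩ := C.gD
  rcases lt_trichotomy M 1 with hM1 | hM1 | hM1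
  · -- M = 0
    exfalso
    have hM0 : M = 0 := by omega
    rw [hM0] at i2 hB hX hM
    rcases C.sign_cases with ⟨hs, ha⟩ | ⟨hs, ha⟩
    · rw [hs] at i2
      nlinarith
    · rw [hs] at i2 hX
      have h2 : C.g * |C.D| ≤ p + 1 := by nlinarith
      have h3 : C.g * |C.D| = 1 - p * c := by rw [ha]; linarith
      have h4 : 2 ≤ C.g * |C.D| := by nlinarith
      have h5 : C.g * |C.D| = p + 1 := by
        have hc1 : c ≤ -1 := by
          by_contra h
          push Not at h
          have : 0 ≤ c := by omega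
          nlinarith
        have hc2 : -1 ≤ c := by
          by_contra h
          push Not at h
          have : c ≤ -2 := by omega
          nlinarith
        have : c = -1 := le_antisymm hc1 hc2
        rw [h3, this]; ring
      -- equality everywhere
      have heq : ∀ k ∈ C.K \ C.A, |C.D| * C.y k ^ 2 -
          (p + 1) * (C.D.sign * (C.y k * C.d k)) = 0 := by
        have hnn : ∀ k ∈ C.K \ C.A, 0 ≤ |C.D| * C.y k ^ 2 -
          (p + 1) * (C.D.sign * (C.y k * C.d k)) := by
          intro k hk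
          have := (C.bnd k hk).2
          linarith
        rw [← Finset.sum_eq_zero_iff_of_nonneg hnn, Finset.sum_sub_distrib, ← Finset.mul_sum,
          ← Finset.mul_sum, hB, hs, hX]
        linear_combination (-(C.g : ℤ)) * h5
      obtain ⟨k, hk, hkp⟩ := C.pos
      have hkA : k ∉ C.A := by
        intro hkA
        have h9 : C.y k ^ 2 ≤ ∑ i ∈ C.A, C.y i ^ 2 :=
          Finset.single_le_sum (f := fun i => C.y i ^ 2) (fun i _ => sq_nonneg _) hkA
        rw [hM] at h9
        nlinarith
      have h6 := heq k (Finset.mem_sdiff.2 ⟨hk, hkA⟩)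
      rw [hs] at h6
      have hdp : (0 : ℤ) < C.d k := by exact_mod_cast C.d_pos k
      nlinarith [mul_pos hAp (mul_pos hkp hkp), mul_pos hkp hdp]
  · -- M = 1
    have hA' : ∑ k ∈ C.A, C.y k ^ 2 = C.g := by rw [hM, hM1]; ring
    obtain ⟨k, hk, hS, hy, hc'⟩ := C.one_orbit (S := C.A)
      (fun k hk => ⟨(Finset.mem_filter.1 hk).1, C.O_A hk⟩) hA'
    obtain ⟨hkK, hsk⟩ := Finset.mem_filter.1 hk
    obtain ⟨N, hN, hN'⟩ := C.par k hkK hsk
    exact ⟨N, hN, by rw [hN', hc']⟩
  · -- M ≥ 2
    have hs : C.D.sign = 1 ∧ |C.D| = C.D := by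
      rcases C.sign_cases with h | ⟨hs, ha⟩
      · exact h
      · exfalso
        rw [hs] at i1
        have h2 : 0 ≤ |C.D| * ((M - 2) * p + C.g) := by
          apply mul_nonneg hAp.le
          have : 0 ≤ (M - 2) * p := mul_nonneg (by omega) (by omega)
          linarith
        nlinarith
    obtain ⟨hs1, ha1⟩ := hs
    rw [hs1, ha1] at i1
    have hDp : 0 < C.D := by rw [← ha1]; exact hAp
    have h2 : C.D * ((M - 2) * p + C.g) ≤ p - 1 := by nlinarith
    have h3 : C.g * C.D ≤ p - 1 := by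
      have : 0 ≤ C.D * ((M - 2) * p) := mul_nonneg hDp.le (mul_nonneg (by omega) (by omega))
      nlinarith
    have h4 : C.g * C.D = p * c - 1 := by linarith
    have h5 : 0 < C.g * C.D := mul_pos (by omega) hDp
    have hc1 : c = 1 := by
      apply le_antisymm
      · by_contra h
        push Not at h
        have : 2 ≤ c := by omega
        nlinarith
      · by_contra h
        push Not at h
        have : c ≤ 0 := by omega
        nlinarith
    rw [hc1] at h4
    obtain ⟨N, hN⟩ := Int.eq_ofNat_of_zero_le hDp.le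
    refine ⟨N, ?_, ?_⟩
    · have := C.D_odd
      rw [hN] at this
      exact_mod_cast this
    · have hN2 : C.D = (N : ℤ) := hN
      rw [← hN2]
      linarith

theorem main (hf : ∃ e : ℕ, p = 2 ^ e + 1) : ∃ k ∈ C.K, C.d k = 1 := by
  obtain ⟨N, hN, hN'⟩ := C.dich
  apply C.caseA
  obtain ⟨e, he⟩ := hf
  have h1 : ((N : ℕ) : ℤ) ∣ (2 : ℤ) ^ e := by
    refine ⟨C.g, ?_⟩
    rw [← hN', he]
    push_cast
    ring
  have h2 : N ∣ 2 ^ e := by exact_mod_cast h1
  have h3 : N = 1 := by
    obtain ⟨f, -, hf⟩ := (Nat.dvd_prime_pow Nat.prime_two).1 h2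
    rcases Nat.eq_zero_or_pos f with h | h
    · rw [hf, h, pow_zero]
    · exfalso
      rw [hf] at hN
      have : Even (2 ^ f) := (Nat.even_pow.2 ⟨even_two, h.ne'⟩)
      exact (Nat.not_even_iff_odd.2 hN) this
  rw [h3] at hN'
  push_cast at hN'
  linarith

end CD3

end Pool.Agent.Helper94.OT
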