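import Pool.Agent.Helper94.OT.Fer

/-! # Project OT (MP_2b6189_al): the stabilizer of the exceptional orbit has odd order -/

set_option autoImplicit false

namespace Pool.Agent.Helper94.OT

open Pool.Agent.Helper89.OS Pool.Agent.Helper60.OS

open Classical in
theorem par2 {I : Type} [Fintype I] [DecidableEq I] {p : ℕ} (X : PD I p 1) (k : I)
    (h : X.pi (-1) k ≠ k) : ∃ N : ℕ, Odd N ∧ (p : ℤ) - 1 = N * ((Orb X k).card : ℤ) := by
  have hpp : Fact (Nat.Prime (p ^ 1)) := ⟨by rw [pow_one]; exact X.prime⟩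
  have : NeZero p := ⟨X.prime.ne_zero⟩
  let act : MulAction (ZMod (p ^ 1))ˣ I :=
    { smul := fun c i => X.pi c i
      one_smul := X.pi_one
      mul_smul := X.pi_mul }
  have hact : ∀ (c : (ZMod (p ^ 1))ˣ) (i : I), c • i = X.pi c i := fun _ _ => rfl
  have horb : (Orb X k).card = Fintype.card (MulAction.orbit (ZMod (p ^ 1))ˣ k) := by
    rw [← Set.toFinset_card]
    congr 1
    ext j
    simp only [Orb, Finset.mem_filter, Finset.mem_univ, true_and, Set.mem_toFinset,
      MulAction.mem_orbit_iff, hact]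
  have h1 := MulAction.card_orbit_mul_card_stabilizer_eq_card_group (ZMod (p ^ 1))ˣ k
  have h2 : Fintype.card (ZMod (p ^ 1))ˣ = p - 1 := by
    rw [ZMod.card_units_eq_totient, pow_one, Nat.totient_prime X.prime]
  rw [h2, ← horb] at h1
  refine ⟨Fintype.card (MulAction.stabilizer (ZMod (p ^ 1))ˣ k), ?_, ?_⟩
  · by_contra hodd
    rw [Nat.not_odd_iff_even] at hodd
    have h3 : 2 ∣ Fintype.card (MulAction.stabilizer (ZMod (p ^ 1))ˣ k) := hodd.two_dvd
    obtain ⟨c, hc⟩ := exists_prime_orderOf_dvd_card 2 h3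
    have hc2 : (c : (ZMod (p ^ 1))ˣ) ^ 2 = 1 := by
      have := pow_orderOf_eq_one c
      rw [hc] at this
      exact_mod_cast congrArg Subtype.val this
    have hc1 : (c : (ZMod (p ^ 1))ˣ) ≠ 1 := by
      intro h4
      have h5 : c = 1 := Subtype.ext h4
      rw [h5, orderOf_one] at hc
      norm_num at hc
    have h6 : (((c : (ZMod (p ^ 1))ˣ) : ZMod (p ^ 1)) - 1) *
        (((c : (ZMod (p ^ 1))ˣ) : ZMod (p ^ 1)) + 1) = 0 := by
      have h7 : (((c : (ZMod (p ^ 1))ˣ) : ZMod (p ^ 1))) ^ 2 = 1 := by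
        rw [← Units.val_pow_eq_pow_val, hc2, Units.val_one]
      linear_combination h7
    rcases mul_eq_zero.1 h6 with h7 | h7
    · apply hc1
      apply Units.ext
      rw [Units.val_one]
      exact sub_eq_zero.1 h7
    · have h8 : (c : (ZMod (p ^ 1))ˣ) = -1 := by
        apply Units.ext
        rw [Units.val_neg, Units.val_one]
        exact eq_neg_of_add_eq_zero_left h7
      apply h
      have h9 := c.2
      rw [MulAction.mem_stabilizer_iff, h8] at h9
      exact h9
  · have h3 : 1 ≤ p := X.prime.one_lt.le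
    have h4 : (((Orb X k).card * Fintype.card (MulAction.stabilizer (ZMod (p ^ 1))ˣ k) : ℕ) : ℤ) =
        ((p - 1 : ℕ) : ℤ) := by
      rw [h1]
    rw [Nat.cast_sub h3] at h4
    push_cast at h4
    linarith

end Pool.Agent.Helper94.OT
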